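import Mathlib

/-!
Friedman-Pippenger extension technique with rollback, abstract form.
`N x` is the set of neighbours of `x` (any map), `W` the used set, `f` the demand function.
`Good N M W f`: every set `U` of at most `M` vertices has at least `∑ x ∈ U, f x` neighbours outside `W`.
-/

namespace Pool.Agent.Helper43.FP

open Finset

variable {V : Type*} [DecidableEq V]

/-- neighbourhood of a set -/
def nb (N : V → Finset V) (U : Finset V) : Finset V := U.biUnion N

theorem mem_nb {N : V → Finset V} {U : Finset V} {y : V} : y ∈ nb N U ↔ ∃ x ∈ U, y ∈ N x := by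
  simp [nb]

theorem nb_union (N : V → Finset V) (A B : Finset V) : nb N (A ∪ B) = nb N A ∪ nb N B := by
  ext y; simp only [mem_nb, mem_union]
  constructor
  · rintro ⟨x, hx | hx, hy⟩
    · exact Or.inl ⟨x, hx, hy⟩
    · exact Or.inr ⟨x, hx, hy⟩
  · rintro (⟨x, hx, hy⟩ | ⟨x, hx, hy⟩)
    · exact ⟨x, Or.inl hx, hy⟩
    · exact ⟨x, Or.inr hx, hy⟩

theorem nb_mono (N : V → Finset V) {A B : Finset V} (h : A ⊆ B) : nb N A ⊆ nb N B := by
  intro y hy
  obtain ⟨x, hx, hxy⟩ := mem_nb.1 hy
  exact mem_nb.2 ⟨x, h hx, hxy⟩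

/-- the extendability condition -/
def Good (N : V → Finset V) (M : ℕ) (W : Finset V) (f : V → ℕ) : Prop :=
  ∀ U : Finset V, U.card ≤ M → ∑ x ∈ U, f x ≤ (nb N U \ W).card

theorem Good.mono {N : V → Finset V} {M : ℕ} {W : Finset V} {f g : V → ℕ} (h : Good N M W f)
    (hf : ∀ x, g x ≤ f x) : Good N M W g := by
  intro U hU
  exact le_trans (Finset.sum_le_sum fun x _ => hf x) (h U hU)

/-- rollback: remove a set of used vertices, giving back the demand of their parents -/
theorem Good.rollback {N : V → Finset V} {M : ℕ} {W' W'' : Finset V} {f' f'' : V → ℕ}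
    (h : Good N M W' f') (hW : W'' ⊆ W') (par : V → V) (hp : ∀ y ∈ W' \ W'', y ∈ N (par y))
    (hf : ∀ x, f'' x ≤ f' x + ((W' \ W'').filter fun y => par y = x).card) :
    Good N M W'' f'' := by
  intro U hU
  have h1 := h U hU
  have h2 : ∑ x ∈ U, f'' x ≤ ∑ x ∈ U, f' x + ((W' \ W'').filter fun y => par y ∈ U).card := by
    have : ∑ x ∈ U, ((W' \ W'').filter fun y => par y = x).card
        = ((W' \ W'').filter fun y => par y ∈ U).card := by
      rw [← Finset.card_biUnion]
      · congr 1
        ext y
        simp only [mem_biUnion, mem_filter]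
        constructor
        · rintro ⟨x, hx, hy, rfl⟩; exact ⟨hy, hx⟩
        · rintro ⟨hy, hx⟩; exact ⟨par y, hx, hy, rfl⟩
      · intro a _ b _ hab
        rw [Function.onFun, Finset.disjoint_left]
        intro y hy hy'
        rw [mem_filter] at hy hy'
        exact hab (hy.2.symm.trans hy'.2)
    calc ∑ x ∈ U, f'' x ≤ ∑ x ∈ U, (f' x + ((W' \ W'').filter fun y => par y = x).card) :=
          Finset.sum_le_sum fun x _ => hf x
      _ = _ := by rw [Finset.sum_add_distrib, this]
  have h3 : (nb N U \ W').card + ((W' \ W'').filter fun y => par y ∈ U).card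
      ≤ (nb N U \ W'').card := by
    rw [← Finset.card_union_of_disjoint]
    · apply Finset.card_le_card
      intro y hy
      rw [mem_union] at hy
      rcases hy with hy | hy
      · rw [mem_sdiff] at hy ⊢
        exact ⟨hy.1, fun h => hy.2 (hW h)⟩
      · rw [mem_filter] at hy
        have := hp y hy.1
        rw [mem_sdiff] at hy ⊢
        exact ⟨mem_nb.2 ⟨par y, hy.2, this⟩, hy.1.2⟩
    · rw [Finset.disjoint_left]
      intro y hy hy'
      rw [mem_sdiff] at hy
      rw [mem_filter, mem_sdiff] at hy'
      exact hy.2 hy'.1.1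
  omega

/-- the extension step -/
theorem Good.extend {N : V → Finset V} {M m : ℕ} {W : Finset V} {f : V → ℕ}
    (h : Good N M W f) (hm1 : 2 * m ≤ M + 2) (hm2 : m ≤ M) (hm0 : 1 ≤ m)
    (hE : ∀ U : Finset V, U.card ≤ M → m ≤ U.card → ∑ x ∈ U, f x < (nb N U \ W).card)
    (s : V) (hs : 1 ≤ f s) :
    ∃ y, y ∈ N s ∧ y ∉ W ∧ Good N M (insert y W) (Function.update f s (f s - 1)) := by
  classical
  by_contra hcon
  push Not at hcon
  -- tight sets
  have tight : ∀ y ∈ N s \ W, ∃ U : Finset V, U.card < m ∧ s ∉ U ∧ y ∈ nb N U ∧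
      ∑ x ∈ U, f x = (nb N U \ W).card := by
    intro y hy
    rw [mem_sdiff] at hy
    have h1 := hcon y hy.1 hy.2
    unfold Good at h1
    push Not at h1
    obtain ⟨U, hU, hlt⟩ := h1
    have h2 := h U hU
    have hsd : (nb N U \ insert y W) = (nb N U \ W).erase y := by
      ext z; simp only [mem_sdiff, mem_insert, mem_erase]; tauto
    rw [hsd] at hlt
    by_cases hsU : s ∈ U
    · exfalso
      have hyU : y ∈ nb N U \ W := by
        rw [mem_sdiff]; exact ⟨mem_nb.2 ⟨s, hsU, hy.1⟩, hy.2⟩
      rw [Finset.card_erase_of_mem hyU] at hlt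
      have h3 : ∑ x ∈ U, Function.update f s (f s - 1) x + 1 = ∑ x ∈ U, f x := by
        rw [← Finset.add_sum_erase U _ hsU, ← Finset.add_sum_erase U f hsU,
          Function.update_self]
        have : ∑ x ∈ U.erase s, Function.update f s (f s - 1) x = ∑ x ∈ U.erase s, f x := by
          apply Finset.sum_congr rfl
          intro x hx
          rw [Function.update_of_ne (Finset.ne_of_mem_erase hx)]
        omega
      have : 0 < (nb N U \ W).card := Finset.card_pos.2 ⟨y, hyU⟩
      omega
    · have h3 : ∑ x ∈ U, Function.update f s (f s - 1) x = ∑ x ∈ U, f x := by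
        apply Finset.sum_congr rfl
        intro x hx
        rw [Function.update_of_ne]
        rintro rfl; exact hsU hx
      rw [h3] at hlt
      by_cases hyU : y ∈ nb N U \ W
      · rw [Finset.card_erase_of_mem hyU] at hlt
        have heq : ∑ x ∈ U, f x = (nb N U \ W).card := by omega
        refine ⟨U, ?_, hsU, (mem_sdiff.1 hyU).1, heq⟩
        by_contra hge
        have := hE U hU (by omega)
        omega
      · rw [Finset.erase_eq_of_notMem hyU] at hlt
        omega
  have key : ∀ Y : Finset V, Y ⊆ N s \ W → ∃ U : Finset V, U.card < m ∧ s ∉ U ∧ Y ⊆ nb N U ∧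
      ∑ x ∈ U, f x = (nb N U \ W).card := by
    intro Y
    induction Y using Finset.induction_on with
    | empty =>
      intro _
      exact ⟨∅, by rw [Finset.card_empty]; omega, by simp, by simp, by simp [nb]⟩
    | insert y Y _ ih =>
      intro hY
      obtain ⟨A, hA1, hA2, hA3, hA4⟩ := ih (fun z hz => hY (mem_insert_of_mem hz))
      obtain ⟨B, hB1, hB2, hB3, hB4⟩ := tight y (hY (mem_insert_self y Y))
      have hcard : (A ∪ B).card ≤ M := by
        have := Finset.card_union_le A B
        omega
      have hcard2 : (A ∩ B).card ≤ M := by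
        have := Finset.card_le_card (Finset.inter_subset_left (s₁ := A) (s₂ := B))
        omega
      have g1 := h (A ∪ B) hcard
      have g2 := h (A ∩ B) hcard2
      have g3 : ∑ x ∈ A ∪ B, f x + ∑ x ∈ A ∩ B, f x = ∑ x ∈ A, f x + ∑ x ∈ B, f x :=
        Finset.sum_union_inter
      have g4 : (nb N (A ∪ B) \ W).card + (nb N (A ∩ B) \ W).card
          ≤ (nb N A \ W).card + (nb N B \ W).card := by
        rw [← Finset.card_union_add_card_inter (nb N A \ W) (nb N B \ W)]
        apply Nat.add_le_add
        · apply Finset.card_le_card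
          rw [nb_union]
          intro z hz
          simp only [mem_sdiff, mem_union] at hz ⊢
          tauto
        · apply Finset.card_le_card
          intro z hz
          rw [mem_sdiff] at hz
          rw [mem_inter, mem_sdiff, mem_sdiff]
          exact ⟨⟨nb_mono N Finset.inter_subset_left hz.1, hz.2⟩,
            ⟨nb_mono N Finset.inter_subset_right hz.1, hz.2⟩⟩
      have g5 : ∑ x ∈ A ∪ B, f x = (nb N (A ∪ B) \ W).card := by omega
      refine ⟨A ∪ B, ?_, ?_, ?_, g5⟩
      · by_contra hge
        have := hE (A ∪ B) hcard (by omega)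
        omega
      · rw [mem_union]; tauto
      · intro z hz
        rw [mem_insert] at hz
        rw [nb_union, mem_union]
        rcases hz with rfl | hz
        · exact Or.inr hB3
        · exact Or.inl (hA3 hz)
  obtain ⟨U, hU1, hU2, hU3, hU4⟩ := key _ (Finset.Subset.refl _)
  have h1 := h (insert s U) (by rw [Finset.card_insert_of_notMem hU2]; omega)
  rw [Finset.sum_insert hU2] at h1
  have h2 : nb N (insert s U) \ W = nb N U \ W := by
    ext z
    simp only [mem_sdiff, mem_nb, mem_insert]
    constructor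
    · rintro ⟨⟨x, hx | hx, hz⟩, hzW⟩
      · subst hx
        have := hU3 (mem_sdiff.2 ⟨hz, hzW⟩)
        exact ⟨mem_nb.1 this, hzW⟩
      · exact ⟨⟨x, hx, hz⟩, hzW⟩
    · rintro ⟨⟨x, hx, hz⟩, hzW⟩
      exact ⟨⟨x, Or.inr hx, hz⟩, hzW⟩
  rw [h2] at h1
  omega

end Pool.Agent.Helper43.FP
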